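import Pool.Agent.Helper5.KPA.StN

/-!
# Project KP, chapter A, module ABK (dimension of `BB F k`)
-/

set_option autoImplicit false

namespace Pool.Agent.Helper72.KPA

open Pool.Agent.Helper5.KPA Pool.Agent.Helper52.KP MvPolynomial

private lemma dim_BB {m : ℕ} (F : ℕ → ℕ → Submodule ℂ (MvPolynomial (Fin m) ℂ)) (k N : ℕ)
    (hN : ∀ l, N ≤ l → F k l = ⊥) (hfd : ∀ l, FiniteDimensional ℂ (F k l)) :
    Module.finrank ℂ (BB F k) = ∑ l : Fin N, Module.finrank ℂ (F k l) := by
  obtain ⟨T, hT⟩ : ∃ T : BB F k →ₗ[ℂ] ((l : Fin N) → F k l),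
      ∀ x l, (T x l : MvPolynomial (Fin m) ℂ) = (x : QQ m).coeff l := by
    refine ⟨{ toFun := fun x l => ⟨(x : QQ m).coeff l, x.2 l⟩,
              map_add' := fun x y => ?_, map_smul' := fun a x => ?_ }, fun x l => rfl⟩
    · funext l
      apply Subtype.ext
      simp
    · funext l
      apply Subtype.ext
      simp
  have hinj : Function.Injective T := by
    rw [injective_iff_map_eq_zero]
    intro x hx
    apply Subtype.ext
    apply Polynomial.ext
    intro l
    by_cases hl : l < N
    · have h1 := hT x ⟨l, hl⟩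
      rw [hx] at h1
      exact h1.symm
    · have h1 : (x : QQ m).coeff l ∈ F k l := x.2 l
      rw [hN l (not_lt.1 hl), Submodule.mem_bot] at h1
      rw [h1]
      simp
  have hsur : Function.Surjective T := by
    intro f
    have hmem : (∑ l : Fin N, Polynomial.monomial (l : ℕ) (f l : MvPolynomial (Fin m) ℂ)) ∈
        BB F k := by
      intro l
      rw [Polynomial.finsetSum_coeff]
      refine Submodule.sum_mem _ fun i _ => ?_
      rw [Polynomial.coeff_monomial]
      split_ifs with h
      · rw [← h]
        exact (f i).2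
      · exact zero_mem _
    refine ⟨⟨_, hmem⟩, ?_⟩
    funext l
    apply Subtype.ext
    rw [hT]
    simp only [Polynomial.finsetSum_coeff, Polynomial.coeff_monomial]
    rw [Finset.sum_eq_single l]
    · simp
    · intro i _ hi
      rw [if_neg]
      intro h
      exact hi (Fin.ext h)
    · intro h
      exact absurd (Finset.mem_univ l) h
  rw [(LinearEquiv.ofBijective T ⟨hinj, hsur⟩).finrank_eq, Module.finrank_pi_fintype]

theorem hABK (hAGR : StAGR) : StABK := by
  intro C hC r F hF k
  obtain ⟨-, -, h0, L, hL⟩ := hAGR C hC r F hF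
  have hle : ∀ l, F k l ≤ RD C r k := by
    intro l
    induction l with
    | zero => exact (h0 k 0 (Nat.zero_le k)).le
    | succ l ih => exact (hF.anti k l).trans ih
  have hfd : ∀ l, FiniteDimensional ℂ (F k l) := by
    intro l
    have h1 : FiniteDimensional ℂ (RD C r k) := hC.fd _
    exact Submodule.finiteDimensional_of_le (hle l)
  rw [dim_BB F k (k * L + 1) (hL k) hfd, Fin.sum_univ_succ]
  unfold wF
  rw [finsum_eq_sum_of_support_subset (s := Finset.range (k * L)), Finset.sum_range]
  · have h1 : F k ((0 : Fin (k * L + 1)) : ℕ) = RD C r k := h0 k 0 (Nat.zero_le k)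
    rw [h1]
    push_cast
    rfl
  · intro l hl
    simp only [Finset.coe_range, Set.mem_Iio]
    by_contra h
    apply hl
    have h1 : F k (l + 1) = ⊥ := hL k (l + 1) (by omega)
    simp only
    rw [h1]
    simp

end Pool.Agent.Helper72.KPA
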